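import Pool.Agent.helper37.NA.Spec

set_option autoImplicit false

namespace Pool.Agent.NAB

open Pool.Agent.helper58.DC Pool.Agent.DI Pool.Agent.GR Pool.Agent.OB Pool.Agent.DR Pool.Agent.FI Pool.Agent.FI3 Pool.Agent.FI4 Pool.Agent.FI4I Pool.Agent.LE Pool.Agent.L5

theorem NDB_index {p : ℕ} (hp : p.Prime) {G : Type} [Group G] [Finite G] {D C : Subgroup G}
    (hDC : D ≤ C) (h : Nat.card D = pp p C) : ¬ p ∣ D.relIndex C := by
  intro hd
  have hC0 : Nat.card C ≠ 0 := Nat.card_pos.ne'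
  have h1 : Nat.card D * D.relIndex C = Nat.card C := by
    have h2 := Subgroup.relIndex_mul_relIndex (⊥ : Subgroup G) D C bot_le hDC
    rw [Subgroup.relIndex_bot_left, Subgroup.relIndex_bot_left] at h2
    exact h2
  obtain ⟨k, hk⟩ := hd
  have hF : Fact p.Prime := ⟨hp⟩
  have h3 : p ^ (padicValNat p (Nat.card C) + 1) ∣ Nat.card C := by
    refine ⟨k, ?_⟩
    calc Nat.card C = Nat.card D * D.relIndex C := h1.symm
      _ = pp p C * (p * k) := by rw [h, hk]
      _ = p ^ (padicValNat p (Nat.card C) + 1) * k := by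
          unfold pp
          rw [pow_succ]
          ring
  have h4 := (padicValNat_dvd_iff_le hC0).1 h3
  omega

theorem NDB_syl {p : ℕ} (hp : p.Prime) {G : Type} [Group G] [Finite G] (C : Subgroup G) :
    ∃ Q : Subgroup G, Q ≤ C ∧ IsPGroup p Q ∧ Nat.card Q = pp p C := by
  haveI : Fact p.Prime := ⟨hp⟩
  obtain ⟨P⟩ : Nonempty (Sylow p C) := inferInstance
  refine ⟨(P : Subgroup C).map C.subtype, ?_, ?_, ?_⟩
  · rintro _ ⟨y, -, rfl⟩
    exact y.2
  · exact P.2.map C.subtype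
  · rw [Nat.card_congr ((P : Subgroup C).equivMapOfInjective C.subtype C.subtype_injective).symm.toEquiv]
    have h := Sylow.card_eq_multiplicity P
    rw [Nat.factorization_def _ hp] at h
    exact h

theorem NDB (hNUD : NUD_stmt) (hNTR : NTR_stmt) (hNDX : NDX_stmt) (hTPR : Pool.Agent.FI.TPR_stmt)
    (hCLS : CLS_stmt) : NDB_stmt := by
  intro p e m M hS hme G _ _ hOp χ hχ z x hU
  have hpr : p.Prime := hS.pr
  obtain ⟨hT1, -, -, -, hT5⟩ := hTPR p M hS G
  obtain ⟨-, D, y, hD, hzD, hzc, hDc⟩ := hNUD p e m M hS G ⊤ χ (by rw [hT1]; exact hχ) z x hU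
  have hom : ∀ y : G, omega χ y = cc χ (cls ⊤ y) := fun y => (hCLS G ⊤ y).2.2.2.2.2.2.2.1 χ
  have hint : ∀ y : G, IsIntegral ℤ (cc χ (cls ⊤ y)) := fun y =>
    (hCLS G ⊤ y).2.2.2.2.2.2.2.2 ⊤ le_rfl χ (by rw [hT1]; exact hχ)
  have hcard : Nat.card D = pp p (Subgroup.centralizer ({y} : Set G)) := by
    have h := hD.card
    rwa [hT5] at h
  have hle : D ≤ Subgroup.centralizer {y} := by
    have h := hD.le
    rwa [hT5] at h
  have hmin : ∀ w : G, ¬ InM M (cc χ (cls ⊤ w)) → Nat.card D ≤ pp p (Subgroup.centralizer ({w} : Set G)) := by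
    intro w hw
    have h := hD.min w (Subgroup.mem_top _) hw
    rwa [hT5] at h
  have hnv : ∀ w : G, Pool.Agent.MAP.NonVan M χ w ↔ ¬ InM M (cc χ (cls ⊤ w)) := by
    intro w
    constructor
    · intro h h1
      have h2 : InM M (((⟨cc χ (cls ⊤ w), hint w⟩ : integralClosure ℤ ℂ)) : ℂ) := h1
      exact h _ (InM.mem hS h2) (hom w)
    · intro h a ha h1
      apply h
      rw [← hom, h1]
      exact InM.coe hS ha
  have hDG : Pool.Agent.MAP.DefectGroup p M χ D := by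
    refine ⟨y, hD.reg, (hnv _).2 hD.ne, hle, hD.pg, NDB_index hpr hle hcard, ?_⟩
    intro w hw
    obtain ⟨Q, hQ1, hQ2, hQ3⟩ := NDB_syl hpr (Subgroup.centralizer ({w} : Set G))
    exact ⟨Q, hQ1, hQ2, by rw [hQ3]; exact hmin w ((hnv w).1 hw)⟩
  have hCO := hNTR p e m hpr hme G D hD.pg hDc z hzD hzc hU.od
  exact hNDX p M hS G hOp χ hχ D hDG (e - m / 2) hCO

end Pool.Agent.NAB
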