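import Pool.Agent.helper37.NA.Spec2

set_option autoImplicit false

namespace Pool.Agent.NAB

open Pool.Agent.helper58.DC Pool.Agent.DI Pool.Agent.GR Pool.Agent.OB Pool.Agent.DR Pool.Agent.FI Pool.Agent.FI3 Pool.Agent.FI4 Pool.Agent.FI4I Pool.Agent.LE Pool.Agent.L5

theorem NBP (hNTK : NTK_stmt) (hNBH : NBH_stmt) (hBZ2x : BZ2x_stmt) (hTR1 : TR1_stmt)
    (hTRE : Pool.Agent.L5.TRE_stmt) (hTPR : Pool.Agent.FI.TPR_stmt) : NBP_stmt := by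
  intro p e m M hS hbe G _ _ N φ hφ z x hU
  by_cases hp : p = 2
  · subst hp
    have hb : bz 2 = 2 := if_pos rfl
    rw [hb] at hbe ⊢
    have h0 : ∀ x, x ∉ N → φ x = 0 := hφ.1
    have hU' : Ucl 2 e m M (N.subgroupOf N) (rN N φ) (⟨z, hU.zm⟩ : N) (⟨x, hU.xm⟩ : N) :=
      (hNTK 2 e m M G N N le_rfl φ h0 ⟨z, hU.zm⟩ ⟨x, hU.xm⟩).2 hU
    rw [Subgroup.subgroupOf_self] at hU'
    have hχ : rN N φ ∈ IrrOn (⊤ : Subgroup N) := by
      have h := ((hTR1 G N N le_rfl).1 φ h0).1 hφ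
      rwa [Subgroup.subgroupOf_self] at h
    have hUZ : UZ 2 M (rN N φ) (⟨z, hU.zm⟩ : N) (⟨x, hU.xm⟩ : N) e (2 ^ m) := by
      refine ⟨hU'.co, hU'.re, hU'.od, hU'.ne, ?_⟩
      have h := hU'.cd
      rw [pow_add, mul_comm] at h
      exact h
    obtain ⟨l, hl, h1, h2⟩ := hBZ2x M hS N (rN N φ) hχ ⟨z, hU.zm⟩ ⟨x, hU.xm⟩ e (2 ^ m) hbe hUZ
    refine ⟨l, ?_, h1, ?_⟩
    · have hB : Blk M (rN N φ) ⊤ = Bl M ⊤ (rN N φ) :=
        Set.ext fun ψ => and_congr Iff.rfl ((hTPR 2 M hS N).2.1 ψ (rN N φ))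
      have hLL : LL 2 M (rN N φ) ⊤ = Le 2 M ⊤ (rN N φ) := by
        unfold LL Le
        rw [hB]
      have ht := hTRE 2 M hS G N N le_rfl φ h0
      rw [Subgroup.subgroupOf_self] at ht
      rw [← ht, ← hLL, hl]
    · refine h2.trans (le_of_eq ?_)
      rw [pow_add, ← pow_mul, mul_comm m 2]
      ring
  · have hb : bz p = 1 := if_neg hp
    rw [hb] at hbe ⊢
    exact hNBH p e m M hS hp hbe G N φ hφ z x hU

end Pool.Agent.NAB
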