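import Pool.Agent.helper37.NA.Spec

set_option autoImplicit false

namespace Pool.Agent.NAB

open Pool.Agent.helper58.DC Pool.Agent.DI Pool.Agent.GR Pool.Agent.OB Pool.Agent.DR Pool.Agent.FI Pool.Agent.FI3 Pool.Agent.FI4 Pool.Agent.FI4I Pool.Agent.LE Pool.Agent.L5

theorem NFA_cjS {G : Type} [Group G] {R : Subgroup G} (hR : nz R = ⊤) (g : G) : cjS g (cz R) = cz R := by
  ext x
  rw [mem_cjS]
  constructor
  · intro h
    have h1 := cz_conj (D := R) (g := g) (by rw [hR]; exact Subgroup.mem_top g) h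
    have h2 : g * (g⁻¹ * x * g) * g⁻¹ = x := by group
    rwa [h2] at h1
  · intro h
    have h1 := cz_conj (D := R) (g := g⁻¹) (by rw [hR]; exact Subgroup.mem_top _) h
    rwa [inv_inv] at h1

theorem NFA_nz {G : Type} [Group G] {R : Subgroup G} (hR : nz R = ⊤) : nz (cz R) = ⊤ := by
  refine (Subgroup.eq_top_iff' _).2 fun g => Subgroup.mem_normalizer_iff.2 fun h => ⟨fun hh => ?_, fun hh => ?_⟩
  · exact cz_conj (by rw [hR]; exact Subgroup.mem_top g) hh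
  · have h1 := cz_conj (D := R) (g := g⁻¹) (by rw [hR]; exact Subgroup.mem_top _) hh
    have h2 : g⁻¹ * (g * h * g⁻¹) * g⁻¹⁻¹ = h := by group
    rwa [h2] at h1

theorem NFA (hNFV : NFV_stmt) (hNUH : NUH_stmt) (hNUB : NUB_stmt) (hCFA : CFA_stmt) (hCJG : CJG_stmt)
    (hTPR : Pool.Agent.FI.TPR_stmt) : NFA_stmt := by
  intro p e m M hS G _ _ χ hχ z x hU R₁ hp hn
  have hT : IrrOn (⊤ : Subgroup G) = Irr G := (hTPR p M hS G).1
  have hχ' : χ ∈ IrrOn (⊤ : Subgroup G) := by rw [hT]; exact hχ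
  obtain ⟨ψ₀, hψ₀, n, hn0, hov⟩ := (hCFA G (cz R₁) ⊤ le_top (by rw [NFA_nz hn])).1 χ hχ'
  have hinf : (⊤ : Subgroup G) ⊓ cz R₁ = cz R₁ := top_inf_eq _
  have hSB : SB M (⊤ : Subgroup G) χ ψ₀ :=
    hNFV p M hS G R₁ ⊤ hp le_top (by rw [hn]) χ hχ' ψ₀ (by rw [hinf]; exact hψ₀) n hn0 (by rw [hinf]; exact hov)
  obtain ⟨l, -, hl⟩ := hNUH p e m M hS G ⊤ (cz R₁) le_top ψ₀ hψ₀ χ z x hSB.symm hU
  have hcj : cjS l⁻¹ (cz R₁) = cz R₁ := NFA_cjS hn l⁻¹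
  have hJ := hCJG G M p l⁻¹ (cz R₁)
  have hJt := hCJG G M p l⁻¹ (⊤ : Subgroup G)
  refine ⟨cjF l⁻¹ ψ₀, ?_, ?_, ?_⟩
  · have h := hJ.1 ψ₀ hψ₀
    have h2 : Subgroup.map (MulEquiv.toMonoidHom (MulAut.conj l⁻¹)) (cz R₁) = cz R₁ := hcj
    rw [h2] at h
    exact h
  · have h := (hJt.2.2.2.2.2.1 (Subgroup.mem_top _) ψ₀).1
    exact SB.trans h hSB.symm
  · have h := (hNUB p e m M hS G (cz R₁) ψ₀ _ _ hl).2.1 l⁻¹
    rw [hcj] at h
    have e1 : l⁻¹ * (l * z * l⁻¹) * l⁻¹⁻¹ = z := by group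
    have e2 : l⁻¹ * (l * x * l⁻¹) * l⁻¹⁻¹ = x := by group
    rw [e1, e2] at h
    exact h

end Pool.Agent.NAB
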