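import Pool.Agent.helper37.NA.Spec

set_option autoImplicit false

namespace Pool.Agent.NAB

open Pool.Agent.helper58.DC Pool.Agent.DI Pool.Agent.GR Pool.Agent.OB Pool.Agent.DR Pool.Agent.FI Pool.Agent.FI3 Pool.Agent.FI4 Pool.Agent.FI4I Pool.Agent.LE Pool.Agent.L5

theorem NFS_cjS {G : Type} [Group G] {R : Subgroup G} {g : G} (hg : g ∈ nz R) : cjS g (cz R) = cz R := by
  ext x
  rw [mem_cjS]
  constructor
  · intro h
    have h1 := cz_conj (D := R) (g := g) hg h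
    have h2 : g * (g⁻¹ * x * g) * g⁻¹ = x := by group
    rwa [h2] at h1
  · intro h
    have h1 := cz_conj (D := R) (g := g⁻¹) ((nz R).inv_mem hg) h
    rwa [inv_inv] at h1

theorem NFS_mem {G : Type} [Group G] {E : Subgroup G} {g : G} (h : cjS g E = E) : g ∈ nz E := by
  refine Subgroup.mem_normalizer_iff.2 fun x => ?_
  have h1 : g * x * g⁻¹ ∈ cjS g E ↔ x ∈ E := by
    rw [mem_cjS]
    have h2 : g⁻¹ * (g * x * g⁻¹) * g = x := by group
    rw [h2]
  rw [h] at h1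
  exact h1.symm

theorem NFS_fix {G : Type} [Group G] {E : Subgroup G} {k : G} (hk : k ∈ cz E) : cjS k E = E := by
  have hc : ∀ y ∈ E, k * y = y * k := fun y hy => ((Subgroup.mem_centralizer_iff.1 hk) y hy).symm
  ext x
  rw [mem_cjS]
  constructor
  · intro h
    have h1 := hc _ h
    have h2 : x = k⁻¹ * x * k := by
      have h3 : k * (k⁻¹ * x * k) = x * k := by group
      rw [h3] at h1
      exact mul_right_cancel h1
    rw [h2]
    exact h
  · intro h
    have h1 := hc x h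
    have h2 : k⁻¹ * x * k = x := by
      rw [mul_assoc, ← h1]
      group
    rw [h2]
    exact h

theorem NFS (hNEG : NEG_stmt) (hNUB : NUB_stmt) (hNUE : NUE_stmt) (hCJG : CJG_stmt) : NFS_stmt := by
  intro p e m M hS hme G _ _ R₁ ψ₁ hψ₁ z x hU hE
  have hcE : cz R₁ ≤ cz (Eg p e z) := Subgroup.centralizer_le hE
  have hcn : cz (Eg p e z) ≤ nz (Eg p e z) := Subgroup.centralizer_le_normalizer _
  refine ⟨?_, ?_, hcE.trans hcn⟩
  · intro g hg
    have hg1 : g ∈ nz R₁ := hg.1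
    have hg2 : SB M (cz R₁) (cjF g ψ₁) ψ₁ := hg.2
    have h1 := (hNUB p e m M hS G (cz R₁) ψ₁ z x hU).2.1 g
    rw [NFS_cjS hg1] at h1
    have h2 := (hNUB p e m M hS G (cz R₁) (cjF g ψ₁) _ _ h1).1 ψ₁ hg2
    obtain ⟨k, hk, hke⟩ := hNUE p e m M hS hme G (cz R₁) ψ₁ hψ₁ z x _ _ hU h2
    rw [(hNEG p e hS.pr G z).1 g, NFS_fix (hcE hk)] at hke
    exact NFS_mem hke
  · intro k hk
    have h1 : k ∈ nz R₁ := Subgroup.centralizer_le_normalizer _ hk
    exact ⟨h1, ((hCJG G M p k (cz R₁)).2.2.2.2.2.1 hk ψ₁).1⟩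

end Pool.Agent.NAB
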